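import Pool.Agent.R866.GR.Final
import Pool.Agent.R866.GR.Base
import Pool.Agent.R866.GR.Desc
import Pool.Agent.R866.GR.Gadget
import Pool.Agent.R866.GR.Local
import Pool.Agent.R866.GR.Path
import Pool.Agent.R866.GR.Place
import Pool.Agent.R866.GR.Step
import Pool.Agent.R866.GR.Vec

/-!
# MP_b06d56_al: the growth rate of a finite algebra is linear at least, or polylogarithmic

`O` is an arbitrary set of finitary operations on the finite nonempty set `A`
(`Ops A = Set (Σ m, (Fin m → A) → A)`), `Closed O F` says that the set `F` of functions `Y → A` is
closed under the pointwise operations, `Gen O G` that every closed set containing `G` is everything,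
and `growth O n` is the least cardinality of a generating set of `A^n`.
-/

namespace Pool.Agent.Results.MP_b06d56_al.PolylogGap

open Pool.Agent.R866.GR

/-- For every finite algebra `(A, O)`: either `growth O n ≥ (n - |A|) / |A|²` for every `n`, or
`growth O n = O((log n)^m)` for some `m`. -/
theorem result : ∀ (A : Type) [Fintype A] [Nonempty A] (O : Ops A),
    (∀ n : ℕ, n ≤ Fintype.card A ^ 2 * growth O n + Fintype.card A) ∨
    ∃ (C : ℝ) (m : ℕ), ∀ n : ℕ, 2 ≤ n → (growth O n : ℝ) ≤ C * Real.log n ^ m := by
  intro A _ _ O
  exact final gadget local_ base place step path desc vec A O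

end Pool.Agent.Results.MP_b06d56_al.PolylogGap
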